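import Pool.Agent.TH395.P5.Stm

set_option autoImplicit false
set_option linter.unusedSectionVars false

/-! # No short circuits in a minimal counterexample (job 4407) -/

namespace Pool.Agent.TH169.P5

open Finset Pool.Agent.TH462.T4 Pool.Agent.TH676.T4 Pool.Agent.TH395.P5

variable {V E : Type} [Fintype V] [DecidableEq V] [Fintype E] [DecidableEq E]

theorem bdJ {src dst : E → V} {e : E} {x y : V} (h : JV src dst e x y) (t : K4) (v : V) :
    bd src dst (Pi.single e t) v = (if x = v then t else 0) + (if y = v then t else 0) := by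
  rw [bd_single]
  rcases h with ⟨h1, h2⟩ | ⟨h1, h2⟩
  · rw [h1, h2]
  · rw [h1, h2, add_comm]

theorem JV.prop {src dst : E → V} {e : E} {x y : V} (h : JV src dst e x y) (hxy : x ≠ y) :
    src e ≠ dst e := by
  rcases h with ⟨h1, h2⟩ | ⟨h1, h2⟩
  · rw [h1, h2]; exact hxy
  · rw [h1, h2]; exact hxy.symm

theorem JV.nisL {src dst : E → V} {e : E} {x y : V} (h : JV src dst e x y) (hxy : x ≠ y) :
    Nis src dst x := ⟨e, JV.prop h hxy, by rcases h with ⟨h1, h2⟩ | ⟨h1, h2⟩ <;> simp [h1, h2]⟩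

theorem JV.nisR {src dst : E → V} {e : E} {x y : V} (h : JV src dst e x y) (hxy : x ≠ y) :
    Nis src dst y := ⟨e, JV.prop h hxy, by rcases h with ⟨h1, h2⟩ | ⟨h1, h2⟩ <;> simp [h1, h2]⟩

theorem JV.crs {src dst : E → V} {e : E} {x y : V} (h : JV src dst e x y) (Y : Finset V) :
    e ∈ crs src dst Y ↔ ¬ (x ∈ Y ↔ y ∈ Y) := by
  rw [mem_crs]
  rcases h with ⟨h1, h2⟩ | ⟨h1, h2⟩
  · rw [h1, h2]
  · rw [h1, h2]; tauto

/-- edges with different ends are different -/
theorem JV.ne {src dst : E → V} {e e' : E} {x y z w : V} (h : JV src dst e x y)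
    (h' : JV src dst e' z w) (hx : ¬ (x = z ∧ y = w)) (hy : ¬ (x = w ∧ y = z)) : e ≠ e' := by
  rintro rfl
  rcases h with ⟨h1, h2⟩ | ⟨h1, h2⟩ <;> rcases h' with ⟨h3, h4⟩ | ⟨h3, h4⟩
  · exact hx ⟨h1.symm.trans h3, h2.symm.trans h4⟩
  · exact hy ⟨h1.symm.trans h3, h2.symm.trans h4⟩
  · exact hy ⟨h2.symm.trans h4, h1.symm.trans h3⟩
  · exact hx ⟨h2.symm.trans h4, h1.symm.trans h3⟩

theorem smp : S_SMP := by
  intro V E _ _ _ _ src dst h e e' x y hxy he he'
  by_contra hne
  obtain ⟨f, hf0, _, hf⟩ := MinCx.con h {e} ⟨e, mem_singleton_self _, JV.prop he hxy⟩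
  have ht : ∀ a b : K4, ∃ t : K4, a + t ≠ 0 ∧ b + t ≠ 0 := by decide
  obtain ⟨t, t1, t2⟩ := ht (f e) (f e')
  have hz : ∀ A B : K4, A + B + (A + B) = 0 := by decide
  refine h.nf ⟨f + (Pi.single e t + Pi.single e' t), fun v => ?_,
    fun d hd => absurd hd (notMem_empty _), fun d _ _ => ?_⟩
  · rw [bd_add, bd_add, hf0, bdJ he, bdJ he', hz, add_zero]
  · by_cases h1 : d = e
    · subst h1
      simpa [Pi.single_apply, hne] using t1
    · by_cases h2 : d = e'
      · subst h2
        simpa [Pi.single_apply, h1] using t2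
      · simpa [Pi.single_apply, h1, h2] using hf d (notMem_empty _) (by simpa using h1)

theorem tri : S_TRI := by
  intro V E _ _ _ _ src dst h a b c hab hac hbc ⟨e1, h1⟩ ⟨e2, h2⟩ ⟨e3, h3⟩
  have h12 : e1 ≠ e2 := JV.ne h1 h2 (fun k => hab k.1) (fun k => hac k.1)
  have h13 : e1 ≠ e3 := JV.ne h1 h3 (fun k => hac k.1) (fun k => hbc k.2)
  have h23 : e2 ≠ e3 := JV.ne h2 h3 (fun k => hbc k.1) (fun k => hab k.1.symm)
  obtain ⟨f, hf0, _, hf⟩ := MinCx.con h {e1} ⟨e1, mem_singleton_self _, JV.prop h1 hab⟩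
  have ht : ∀ a b c : K4, ∃ t : K4, a + t ≠ 0 ∧ b + t ≠ 0 ∧ c + t ≠ 0 := by decide
  obtain ⟨t, t1, t2, t3⟩ := ht (f e1) (f e2) (f e3)
  have hz : ∀ A B C : K4, A + B + (B + C + (C + A)) = 0 := by decide
  refine h.nf ⟨f + (Pi.single e1 t + (Pi.single e2 t + Pi.single e3 t)), fun v => ?_,
    fun d hd => absurd hd (notMem_empty _), fun d _ _ => ?_⟩
  · rw [bd_add, bd_add, bd_add, hf0, bdJ h1, bdJ h2, bdJ h3, hz, add_zero]
  · by_cases k1 : d = e1
    · subst k1
      simpa [Pi.single_apply, h12, h13] using t1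
    · by_cases k2 : d = e2
      · subst k2
        simpa [Pi.single_apply, k1, h23] using t2
      · by_cases k3 : d = e3
        · subst k3
          simpa [Pi.single_apply, k1, k2] using t3
        · simpa [Pi.single_apply, k1, k2, k3] using hf d (notMem_empty _) (by simpa using k1)

theorem quad : S_QUAD := by
  intro V E _ _ _ _ src dst h a b c d hab hac had hbc hbd hcd ⟨e1, h1⟩ ⟨e2, h2⟩ ⟨e3, h3⟩ ⟨e4, h4⟩
  have h12 : e1 ≠ e2 := JV.ne h1 h2 (fun k => hab k.1) (fun k => hac k.1)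
  have h13 : e1 ≠ e3 := JV.ne h1 h3 (fun k => hac k.1) (fun k => had k.1)
  have h14 : e1 ≠ e4 := JV.ne h1 h4 (fun k => had k.1) (fun k => hbd k.2)
  have h23 : e2 ≠ e3 := JV.ne h2 h3 (fun k => hbc k.1) (fun k => hbd k.1)
  have h24 : e2 ≠ e4 := JV.ne h2 h4 (fun k => hbd k.1) (fun k => hab k.1.symm)
  have h34 : e3 ≠ e4 := JV.ne h3 h4 (fun k => hcd k.1) (fun k => hac k.1.symm)
  have hB : Br src dst {e2, e4} {e1, e3} := by
    intro Y hY
    rw [disjoint_left] at hY
    have k1 : (a ∈ Y ↔ b ∈ Y) := by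
      by_contra hc
      exact hY ((JV.crs h1 Y).2 hc) (by simp)
    have k3 : (c ∈ Y ↔ d ∈ Y) := by
      by_contra hc
      exact hY ((JV.crs h3 Y).2 hc) (by simp)
    by_cases hac' : (a ∈ Y ↔ c ∈ Y)
    · have e : crs src dst Y \ {e2, e4} = crs src dst Y \ ∅ := by
        ext x
        simp only [mem_sdiff, mem_insert, mem_singleton, notMem_empty, not_false_eq_true, and_true]
        constructor
        · exact fun hx => hx.1
        · intro hx
          refine ⟨hx, ?_⟩
          rintro (rfl | rfl)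
          · exact (JV.crs h2 Y).1 hx (by tauto)
          · exact (JV.crs h4 Y).1 hx (by tauto)
      rw [e]
      exact h.br Y (disjoint_empty_right _)
    · have hn1 := JV.nisL h1 hab
      have hn2 := JV.nisR h1 hab
      have hn3 := JV.nisL h3 hcd
      have hn4 := JV.nisR h3 hcd
      have hc4 : 4 ≤ (crs src dst Y).card := by
        by_cases ha : a ∈ Y
        · have hb : b ∈ Y := k1.1 ha
          have hc : c ∉ Y := fun hc => hac' ⟨fun _ => hc, fun _ => ha⟩
          have hd : d ∉ Y := fun hd => hc (k3.2 hd)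
          exact cut4 h ha hb hab hc hd hcd hn1 hn2 hn3 hn4
        · have hb : b ∉ Y := fun hb => ha (k1.2 hb)
          have hc : c ∈ Y := by
            by_contra hc
            exact hac' ⟨fun k => absurd k ha, fun k => absurd k hc⟩
          have hd : d ∈ Y := k3.1 hc
          exact cut4 h hc hd hcd ha hb hab hn3 hn4 hn1 hn2
      have h5 := le_card_sdiff ({e2, e4} : Finset E) (crs src dst Y)
      have h6 : ({e2, e4} : Finset E).card = 2 := card_pair h24
      omega
  obtain ⟨f, hf0, hfD, hf⟩ := h.crit {e2, e4} {e1, e3} (by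
      rw [disjoint_left]
      intro x hx hx'
      simp only [mem_insert, mem_singleton] at hx hx'
      rcases hx with rfl | rfl <;> rcases hx' with hx' | hx'
      · exact h12 hx'.symm
      · exact h23 hx'
      · exact h14 hx'.symm
      · exact h34 hx'.symm) ⟨e1, by simp, JV.prop h1 hab⟩ hB
  have ht : ∀ a c : K4, ∃ t : K4, a + t ≠ 0 ∧ c + t ≠ 0 ∧ t ≠ 0 := by decide
  obtain ⟨t, t1, t3, t0⟩ := ht (f e1) (f e3)
  have hz : ∀ A B C D : K4, A + B + (B + C + (C + D + (D + A))) = 0 := by decide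
  have f2 : f e2 = 0 := hfD e2 (by simp)
  have f4 : f e4 = 0 := hfD e4 (by simp)
  refine h.nf ⟨f + (Pi.single e1 t + (Pi.single e2 t + (Pi.single e3 t + Pi.single e4 t))),
    fun v => ?_, fun x hx => absurd hx (notMem_empty _), fun x _ _ => ?_⟩
  · rw [bd_add, bd_add, bd_add, bd_add, hf0, bdJ h1, bdJ h2, bdJ h3, bdJ h4, hz, add_zero]
  · by_cases k1 : x = e1
    · subst k1
      simpa [Pi.single_apply, h12, h13, h14] using t1
    · by_cases k2 : x = e2
      · subst k2
        simpa [Pi.single_apply, k1, h23, h24, f2] using t0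
      · by_cases k3 : x = e3
        · subst k3
          simpa [Pi.single_apply, k1, k2, h34] using t3
        · by_cases k4 : x = e4
          · subst k4
            simpa [Pi.single_apply, k1, k2, k3, f4] using t0
          · simpa [Pi.single_apply, k1, k2, k3, k4] using
              hf x (by simp [k2, k4]) (by simp [k1, k3])

end Pool.Agent.TH169.P5
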